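import Pool.Agent.Y521.SD.Stm
import Pool.Agent.Y899.SH.Chart

/-!
Project SD (helper521), job SD-BOX: uniform boxes inside an open set.
-/

set_option autoImplicit false

open Set Filter Topology Metric Function MeasureTheory
open scoped Manifold ContDiff

noncomputable section

namespace Pool.Agent.Y419.SD

open Pool.Agent.Y522 Pool.Agent.Y521.SD

theorem box : StBox := by
  intro n X _ _ F x W hW hxW hx
  obtain ⟨B, κ, hκ, hB0, hinj, hLD, hbox⟩ := Pool.Agent.Y899.SH.mchart n X F x hx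
  have hc : ContinuousAt B 0 := (hLD 0 (by simp)).continuousAt
  have hn : B ⁻¹' W ∈ 𝓝 (0 : E n) := hc.preimage_mem_nhds (hW.mem_nhds (by rwa [hB0]))
  obtain ⟨d, hd, hdW⟩ := Metric.mem_nhds_iff.1 hn
  obtain ⟨lam, hlam⟩ : ∃ lam : ℝ, lam = min 1 (d / 3) := ⟨_, rfl⟩
  have hl0 : 0 < lam := by rw [hlam]; exact lt_min one_pos (by linarith)
  have hl1 : lam ≤ 1 := by rw [hlam]; exact min_le_left _ _
  have hl2 : lam ≤ d / 3 := by rw [hlam]; exact min_le_right _ _
  have hnorm : ∀ z : E n, ‖lam • z‖ = lam * ‖z‖ := by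
    intro z
    rw [norm_smul, Real.norm_eq_abs, abs_of_pos hl0]
  have hle : ∀ z : E n, ‖z‖ ≤ 2 → ‖lam • z‖ ≤ 2 := by
    intro z hz
    rw [hnorm]
    nlinarith [norm_nonneg z]
  have hmem : ∀ z ∈ closedBall (0 : E n) 2, lam • z ∈ closedBall (0 : E n) 2 := by
    intro z hz
    rw [mem_closedBall_zero_iff] at hz ⊢
    exact hle z hz
  refine ⟨fun z => B (lam • z), κ, hκ, by simp [hB0], ?_, ?_, ?_, ?_⟩
  · intro a ha b hb hab
    exact smul_right_injective _ hl0.ne' (hinj (hmem a ha) (hmem b hb) hab)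
  · intro z hz
    have h3 : LD n (fun y : E n => lam • y) z :=
      LD_linear (ContinuousLinearEquiv.smulLeft (Units.mk0 lam hl0.ne')) z
    exact LD.comp_fun (g := B) (f := fun y : E n => lam • y) (hLD _ (hmem z hz)) h3
  · intro z hz
    refine hdW ?_
    rw [mem_ball_zero_iff, hnorm]
    rw [mem_closedBall_zero_iff] at hz
    nlinarith [norm_nonneg z]
  · intro u hu
    obtain ⟨ℓ, hℓ⟩ := hbox u hu
    refine ⟨ℓ, fun p q hp hq t ht hpq => hℓ _ _ (hle p hp) (hle q hq) (lam * t) (by positivity) ?_⟩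
    have h2 : lam • q - lam • p - (lam * t) • u = lam • (q - p - t • u) := by module
    rw [h2, hnorm]
    calc lam * ‖q - p - t • u‖ ≤ lam * (κ * t) := mul_le_mul_of_nonneg_left hpq hl0.le
      _ = κ * (lam * t) := by ring

end Pool.Agent.Y419.SD
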