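import Pool.Agent.Y521.SD.Stm

/-!
Project SD (helper521), job SD-QUOT: a criterion for affine structures.
-/

set_option autoImplicit false

open Set Filter Topology Metric Function MeasureTheory
open scoped Manifold ContDiff

noncomputable section

namespace Pool.Agent.Y419.SD

open Pool.Agent.Y522 Pool.Agent.Y521.SD

theorem norm_pow {n : ℕ} {A : E n ≃L[ℝ] E n} (hA : ∀ x, ‖A x‖ = 2 * ‖x‖) (k : ℕ) (x : E n) :
    ‖(A ^ k) x‖ = 2 ^ k * ‖x‖ := by
  induction k with
  | zero =>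
    rw [pow_zero, pow_zero, one_mul]
    rfl
  | succ k ih =>
    have h1 : (A ^ (k + 1)) x = A ((A ^ k) x) := by
      rw [pow_succ']
      rfl
    rw [h1, hA, ih]
    ring

theorem pow_ne {n : ℕ} {A : E n ≃L[ℝ] E n} (k : ℕ) {x : E n} (hx : x ≠ 0) : (A ^ k) x ≠ 0 := by
  intro h
  exact hx ((A ^ k).injective (by rw [h, map_zero]))

theorem inv_pow {n : ℕ} {T : Type} {A : E n ≃L[ℝ] E n} {π : E n → T}
    (hinv : ∀ x, x ≠ 0 → π (A x) = π x) (k : ℕ) {x : E n} (hx : x ≠ 0) :
    π ((A ^ k) x) = π x := by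
  induction k with
  | zero =>
    rw [pow_zero]
    rfl
  | succ k ih =>
    have h1 : (A ^ (k + 1)) x = A ((A ^ k) x) := by
      rw [pow_succ']
      rfl
    rw [h1, hinv _ (pow_ne k hx), ih]

theorem quot : StQuot := by
  intro n T _ _ A π hA hc hs hinv hfib
  refine ⟨isOpen_ne, hc, ?_, ?_, ?_, ?_⟩
  · -- openness
    intro v hv U hU
    obtain ⟨U', hU'U, hU'o, hvU'⟩ := _root_.mem_nhds_iff.1
      (Filter.inter_mem hU (isOpen_ne.mem_nhds (show v ≠ 0 from hv)))
    obtain ⟨S, hS⟩ : ∃ S : Set (E n), S = ⋃ k : ℕ, ((A ^ k) ⁻¹' U' ∪ (A ^ k) '' U') := ⟨_, rfl⟩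
    have hSo : IsOpen S := by
      rw [hS]
      refine isOpen_iUnion fun k => ?_
      exact (hU'o.preimage (A ^ k).continuous).union
        ((A ^ k).toHomeomorph.isOpenMap _ hU'o)
    obtain ⟨Z, hZ⟩ : ∃ Z : Set (E n), Z = (closedBall 0 2 ∩ {x | 1 ≤ ‖x‖}) ∩ Sᶜ := ⟨_, rfl⟩
    have hZc : IsCompact Z := by
      rw [hZ]
      exact ((isCompact_closedBall 0 2).inter_right
        (isClosed_le continuous_const continuous_norm)).inter_right hSo.isClosed_compl
    have hZ0 : ∀ x ∈ Z, x ≠ 0 := by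
      rintro x hx rfl
      rw [hZ] at hx
      have h1 : (1 : ℝ) ≤ ‖(0 : E n)‖ := hx.1.2
      rw [norm_zero] at h1
      linarith
    have hcl : IsClosed (π '' Z) :=
      (hZc.image_of_continuousOn (hc.mono fun x hx => hZ0 x hx)).isClosed
    have hvZ : π v ∈ (π '' Z)ᶜ := by
      rintro ⟨z, hz, hzv⟩
      have hz0 := hZ0 z hz
      have hzS : z ∉ S := by
        rw [hZ] at hz
        exact hz.2
      apply hzS
      rw [hS, mem_iUnion]
      rcases le_total ‖z‖ ‖v‖ with h | h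
      · obtain ⟨k, hk⟩ := hfib z v hz0 hv h hzv
        refine ⟨k, Or.inl ?_⟩
        show (A ^ k) z ∈ U'
        rw [← hk]
        exact hvU'
      · obtain ⟨k, hk⟩ := hfib v z hv hz0 h hzv.symm
        exact ⟨k, Or.inr ⟨v, hvU', hk.symm⟩⟩
    refine Filter.mem_of_superset (hcl.isOpen_compl.mem_nhds hvZ) ?_
    intro t ht
    obtain ⟨x, hx1, hx2, hxt⟩ := hs t
    have hx0 : x ≠ 0 := by
      rintro rfl
      rw [norm_zero] at hx1
      linarith
    have hxS : x ∈ S := by
      by_contra hcon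
      apply ht
      refine ⟨x, ?_, hxt⟩
      rw [hZ]
      exact ⟨⟨mem_closedBall_zero_iff.2 hx2, hx1⟩, hcon⟩
    rw [hS, mem_iUnion] at hxS
    obtain ⟨k, hk | ⟨u, hu, hk⟩⟩ := hxS
    · exact ⟨(A ^ k) x, (hU'U hk).1, by rw [inv_pow hinv k hx0, hxt]⟩
    · refine ⟨u, (hU'U hu).1, ?_⟩
      rw [← hxt, ← hk]
      exact (inv_pow hinv k (hU'U hu).2).symm
  · -- local injectivity
    intro v hv
    have hv0 : 0 < ‖v‖ := norm_pos_iff.2 hv
    have key : ∀ u w : E n, ‖u - v‖ < ‖v‖ / 4 → ‖w - v‖ < ‖v‖ / 4 → ‖u‖ ≤ ‖w‖ → π u = π w →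
        u = w := by
      intro u w hu hw huw h
      have h1 : ‖v‖ ≤ ‖u - v‖ + ‖u‖ := by
        have := norm_sub_le u (u - v)
        rw [sub_sub_cancel] at this
        linarith
      have h2 : ‖w‖ ≤ ‖w - v‖ + ‖v‖ := by
        have := norm_add_le (w - v) v
        rwa [sub_add_cancel] at this
      have hu0 : u ≠ 0 := by
        rintro rfl
        rw [norm_zero] at h1
        linarith
      have hw0 : w ≠ 0 := by
        rintro rfl
        rw [norm_zero] at huw
        have := norm_pos_iff.2 hu0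
        linarith
      obtain ⟨k, hk⟩ := hfib u w hu0 hw0 huw h
      rcases Nat.eq_zero_or_pos k with h3 | h3
      · rw [h3, pow_zero] at hk
        exact hk.symm
      · exfalso
        have h4 : ‖w‖ = 2 ^ k * ‖u‖ := by rw [hk, norm_pow hA]
        have h5 : (2 : ℝ) ≤ 2 ^ k := by
          calc (2 : ℝ) = 2 ^ 1 := by norm_num
            _ ≤ 2 ^ k := pow_le_pow_right₀ (by norm_num) h3
        have h6 : 2 * ‖u‖ ≤ 2 ^ k * ‖u‖ := mul_le_mul_of_nonneg_right h5 (norm_nonneg _)
        linarith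
    refine ⟨ball v (‖v‖ / 4), ball_mem_nhds v (by linarith), ?_⟩
    intro u hu w hw h
    rw [mem_ball, dist_eq_norm] at hu hw
    rcases le_total ‖u‖ ‖w‖ with h1 | h1
    · exact key u w hu hw h1 h
    · exact (key w u hw hu h1 h.symm).symm
  · intro t
    obtain ⟨v, h1, -, h3⟩ := hs t
    refine ⟨v, ?_, h3⟩
    show v ≠ 0
    rintro rfl
    rw [norm_zero] at h1
    linarith
  · intro u hu v hv h
    have hev : ∀ᶠ w in 𝓝 u, w ≠ 0 := isOpen_ne.mem_nhds (show u ≠ 0 from hu)
    rcases le_total ‖u‖ ‖v‖ with h1 | h1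
    · obtain ⟨k, hk⟩ := hfib u v hu hv h1 h
      refine ⟨A ^ k, ?_⟩
      filter_upwards [hev] with w hw
      rw [map_sub, ← hk, sub_add_cancel]
      exact inv_pow hinv k hw
    · obtain ⟨k, hk⟩ := hfib v u hv hu h1 h.symm
      refine ⟨(A ^ k).symm, ?_⟩
      filter_upwards [hev] with w hw
      have h2 : (A ^ k).symm u = v := by rw [hk, ContinuousLinearEquiv.symm_apply_apply]
      rw [map_sub, h2, sub_add_cancel]
      have h3 : (A ^ k).symm w ≠ 0 := by
        intro h4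
        apply hw
        have := (A ^ k).apply_symm_apply w
        rw [h4, map_zero] at this
        exact this.symm
      have h4 := inv_pow hinv k h3
      rw [ContinuousLinearEquiv.apply_symm_apply] at h4
      exact h4.symm

end Pool.Agent.Y419.SD
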